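import Mathlib

/-!
# `Λ`-metric spaces, segments, `Λ`-trees and free actions without inversions
-/

set_option autoImplicit false

namespace Pool.Agent.Lib.MP_d87150_al.Fb

universe u v w

variable {Λ : Type u} [AddCommGroup Λ] [LinearOrder Λ] {X : Type v}

/-- `d` satisfies the metric axioms with values in `Λ`. -/
structure IsLMetric (d : X → X → Λ) : Prop where
  nonneg : ∀ x y, 0 ≤ d x y
  eq_zero_iff : ∀ x y, d x y = 0 ↔ x = y
  symm : ∀ x y, d x y = d y x
  triangle : ∀ x y z, d x z ≤ d x y + d y z

/-- `S` is a segment `[x, y]`: the image of an isometric embedding of the interval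
`{t : Λ | 0 ≤ t ≤ d x y}` into `X` sending the endpoints to `x` and `y`. -/
def IsSegment (d : X → X → Λ) (S : Set X) (x y : X) : Prop :=
  ∃ α : Set.Icc (0 : Λ) (d x y) → X,
    (∀ s t, d (α s) (α t) = |s.1 - t.1|) ∧
    (∀ s : Set.Icc (0 : Λ) (d x y), s.1 = 0 → α s = x) ∧
    (∀ s : Set.Icc (0 : Λ) (d x y), s.1 = d x y → α s = y) ∧ S = Set.range α

/-- `(X, d)` is a `Λ`-tree. -/
structure IsLTree (d : X → X → Λ) : Prop where
  metric : IsLMetric d
  /-- any two points are joined by a segment -/
  joined : ∀ x y, ∃ S, IsSegment d S x y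
  /-- if two segments share an endpoint, their intersection is a segment -/
  inter : ∀ S S' x y z, IsSegment d S x y → IsSegment d S' x z → ∃ a b, IsSegment d (S ∩ S') a b
  /-- if two segments meet in exactly one common endpoint, their union is a segment -/
  union : ∀ S S' x y z, IsSegment d S x y → IsSegment d S' x z → S ∩ S' = {x} →
    ∃ a b, IsSegment d (S ∪ S') a b

/-- The action of `G` on `(X, d)` is by isometries, and every nontrivial element fixes no point
and has no invariant segment that it reverses. -/
structure IsFreeIsometric (G : Type w) [Group G] [MulAction G X] (d : X → X → Λ) : Prop where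
  isometric : ∀ (g : G) (x y : X), d (g • x) (g • y) = d x y
  no_fixed : ∀ g : G, g ≠ 1 → ∀ x : X, g • x ≠ x
  no_inversion : ∀ g : G, g ≠ 1 → ¬ ∃ (S : Set X) (x y : X), IsSegment d S x y ∧
    (fun p => g • p) '' S = S ∧ g • x = y ∧ g • y = x

end Pool.Agent.Lib.MP_d87150_al.Fb
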