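import Pool.Agent.Lib.MP_d87150_al.Fb.Defs

/-!
# The based length function of a free action on a `Λ`-tree is a free Lyndon length function
-/

set_option autoImplicit false

namespace Pool.Agent.Lib.MP_d87150_al.Fb

open Set

universe u v w

variable {Λ : Type u} [AddCommGroup Λ] [LinearOrder Λ] [IsOrderedAddMonoid Λ] {X : Type v}
  {d : X → X → Λ}

/-- A parametrisation of a segment, extended to a total function. -/
structure Par (d : X → X → Λ) (α : Λ → X) (x y : X) : Prop where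
  iso : ∀ s t, 0 ≤ s → s ≤ d x y → 0 ≤ t → t ≤ d x y → d (α s) (α t) = |s - t|
  zero : α 0 = x
  last : α (d x y) = y

omit [IsOrderedAddMonoid Λ] in
theorem IsSegment.exists_par (hd : IsLMetric d) {S : Set X} {x y : X} (h : IsSegment d S x y) :
    ∃ α : Λ → X, Par d α x y ∧ S = α '' Icc 0 (d x y) := by
  classical
  obtain ⟨α, h1, h2, h3, h4⟩ := h
  have h0 := hd.nonneg x y
  refine ⟨fun t => if ht : t ∈ Icc 0 (d x y) then α ⟨t, ht⟩ else x, ⟨?_, ?_, ?_⟩, ?_⟩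
  · intro s t hs hs' ht ht'
    have e1 : s ∈ Icc 0 (d x y) := ⟨hs, hs'⟩
    have e2 : t ∈ Icc 0 (d x y) := ⟨ht, ht'⟩
    simp only [dif_pos e1, dif_pos e2]
    exact h1 _ _
  · have e1 : (0 : Λ) ∈ Icc 0 (d x y) := ⟨le_rfl, h0⟩
    simp only [dif_pos e1]
    exact h2 _ rfl
  · have e1 : d x y ∈ Icc 0 (d x y) := ⟨h0, le_rfl⟩
    simp only [dif_pos e1]
    exact h3 _ rfl
  · rw [h4]
    ext p
    constructor
    · rintro ⟨s, rfl⟩
      exact ⟨s.1, s.2, by simp only [dif_pos s.2]⟩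
    · rintro ⟨s, hs, rfl⟩
      exact ⟨⟨s, hs⟩, by simp only [dif_pos hs]⟩

omit [IsOrderedAddMonoid Λ] in
theorem Par.isSegment {α : Λ → X} {x y : X} (h : Par d α x y) :
    IsSegment d (α '' Icc 0 (d x y)) x y := by
  refine ⟨fun s => α s.1, fun s t => h.iso _ _ s.2.1 s.2.2 t.2.1 t.2.2, fun s hs => ?_,
    fun s hs => ?_, ?_⟩
  · show α s.1 = x
    rw [hs, h.zero]
  · show α s.1 = y
    rw [hs, h.last]
  · ext p
    constructor
    · rintro ⟨s, hs, rfl⟩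
      exact ⟨⟨s, hs⟩, rfl⟩
    · rintro ⟨s, rfl⟩
      exact ⟨s.1, s.2, rfl⟩

theorem Par.dist_left (hd : IsLMetric d) {α : Λ → X} {x y : X} (h : Par d α x y) {s : Λ}
    (h0 : 0 ≤ s) (h1 : s ≤ d x y) : d x (α s) = s := by
  have := h.iso 0 s le_rfl (hd.nonneg x y) h0 h1
  rw [h.zero, zero_sub, abs_neg, abs_of_nonneg h0] at this
  exact this

theorem Par.dist_right (hd : IsLMetric d) {α : Λ → X} {x y : X} (h : Par d α x y) {s : Λ}
    (h0 : 0 ≤ s) (h1 : s ≤ d x y) : d (α s) y = d x y - s := by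
  have := h.iso s (d x y) h0 h1 (hd.nonneg x y) le_rfl
  rw [h.last, abs_sub_comm, abs_of_nonneg (sub_nonneg.2 h1)] at this
  exact this

theorem Par.inj (hd : IsLMetric d) {α : Λ → X} {x y : X} (h : Par d α x y) {s t : Λ}
    (h0 : 0 ≤ s) (h1 : s ≤ d x y) (h2 : 0 ≤ t) (h3 : t ≤ d x y) (e : α s = α t) : s = t := by
  rw [← h.dist_left hd h0 h1, ← h.dist_left hd h2 h3, e]

/-- Subsegments. -/
theorem Par.sub {α : Λ → X} {x y : X} (h : Par d α x y) {a b : Λ} (h0 : 0 ≤ a) (hab : a ≤ b)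
    (h1 : b ≤ d x y) : d (α a) (α b) = b - a ∧ Par d (fun r => α (a + r)) (α a) (α b) := by
  have e : d (α a) (α b) = b - a := by
    rw [h.iso a b h0 (hab.trans h1) (h0.trans hab) h1, abs_sub_comm,
      abs_of_nonneg (sub_nonneg.2 hab)]
  refine ⟨e, fun s t hs hs' ht ht' => ?_, by simp only [add_zero], by
    simp only [e, add_sub_cancel]⟩
  rw [e] at hs' ht'
  have := h.iso (a + s) (a + t) (by grind) (by grind) (by grind) (by grind)
  rw [this, add_sub_add_left_eq_sub]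

theorem Par.sub_image {α : Λ → X} {a b : Λ} :
    (fun r => α (a + r)) '' Icc 0 (b - a) = α '' Icc a b := by
  ext p
  constructor
  · rintro ⟨s, hs, rfl⟩
    exact ⟨a + s, ⟨by have := hs.1; grind, by have := hs.2; grind⟩, rfl⟩
  · rintro ⟨s, hs, rfl⟩
    exact ⟨s - a, ⟨by have := hs.1; grind, by have := hs.2; grind⟩, by
      simp only [add_sub_cancel]⟩

theorem Par.sub_isSegment {α : Λ → X} {x y : X} (h : Par d α x y) {a b : Λ} (h0 : 0 ≤ a)
    (hab : a ≤ b) (h1 : b ≤ d x y) : IsSegment d (α '' Icc a b) (α a) (α b) := by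
  obtain ⟨e, hp⟩ := h.sub h0 hab h1
  have := hp.isSegment
  rwa [e, Par.sub_image] at this

/-- Reversal. -/
theorem Par.rev (hd : IsLMetric d) {α : Λ → X} {x y : X} (h : Par d α x y) :
    Par d (fun r => α (d x y - r)) y x := by
  refine ⟨fun s t hs hs' ht ht' => ?_, by simp only [sub_zero, h.last], by
    simp only [hd.symm y x, sub_self, h.zero]⟩
  rw [hd.symm y x] at hs' ht'
  have := h.iso (d x y - s) (d x y - t) (by grind) (by grind) (by grind) (by grind)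
  rw [this, sub_sub_sub_cancel_left, abs_sub_comm]

theorem arith_end {s t : Λ} (hs : 0 ≤ s) (ht : 0 ≤ t) (h : s + t = |s - t|) : s = 0 ∨ t = 0 := by
  rcases le_total s t with h1 | h1
  · rw [abs_sub_comm, abs_of_nonneg (sub_nonneg.2 h1)] at h
    left; grind
  · rw [abs_of_nonneg (sub_nonneg.2 h1)] at h
    right; grind

/-- The intersection of two segments issuing from `x` is an initial piece of both. -/
theorem inter_par (hT : IsLTree d) {α β : Λ → X} {x y z : X} (hα : Par d α x y)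
    (hβ : Par d β x z) : ∃ t, 0 ≤ t ∧ t ≤ d x y ∧ t ≤ d x z ∧
      (∀ r, 0 ≤ r → r ≤ t → α r = β r) ∧
      (∀ r r', 0 ≤ r → r ≤ d x y → 0 ≤ r' → r' ≤ d x z → α r = β r' → r ≤ t) := by
  have hd := hT.metric
  obtain ⟨a, b, hab⟩ := hT.inter _ _ x y z hα.isSegment hβ.isSegment
  obtain ⟨γ, hγ, hS⟩ := hab.exists_par hd
  have key : ∃ (w : X) (γ' : Λ → X), Par d γ' x w ∧
      α '' Icc 0 (d x y) ∩ β '' Icc 0 (d x z) = γ' '' Icc 0 (d x w) := by
    have hx : x ∈ γ '' Icc 0 (d a b) := by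
      rw [← hS]
      exact ⟨⟨0, ⟨le_rfl, hd.nonneg _ _⟩, hα.zero⟩, ⟨0, ⟨le_rfl, hd.nonneg _ _⟩, hβ.zero⟩⟩
    have ha : a ∈ α '' Icc 0 (d x y) ∩ β '' Icc 0 (d x z) := by
      rw [hS]; exact ⟨0, ⟨le_rfl, hd.nonneg _ _⟩, hγ.zero⟩
    have hb : b ∈ α '' Icc 0 (d x y) ∩ β '' Icc 0 (d x z) := by
      rw [hS]; exact ⟨_, ⟨hd.nonneg _ _, le_rfl⟩, hγ.last⟩
    obtain ⟨q, hq, hqx⟩ := hx
    obtain ⟨⟨s, hs, hsa⟩, -⟩ := ha
    obtain ⟨⟨t, ht, htb⟩, -⟩ := hb
    have e1 := hγ.dist_left hd hq.1 hq.2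
    have e2 := hγ.dist_right hd hq.1 hq.2
    rw [hqx] at e1 e2
    have e3 := hα.dist_left hd hs.1 hs.2
    have e4 := hα.dist_left hd ht.1 ht.2
    have e5 := hα.iso s t hs.1 hs.2 ht.1 ht.2
    rw [hsa] at e3 e5
    rw [htb] at e4 e5
    rw [hd.symm a x] at e1
    have e6 : s + t = |s - t| := by rw [← e5]; grind
    rcases arith_end hs.1 ht.1 e6 with h | h
    · have : a = x := by rw [← hsa, h, hα.zero]
      subst this
      exact ⟨b, γ, hγ, hS⟩
    · have : b = x := by rw [← htb, h, hα.zero]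
      subst this
      refine ⟨a, _, hγ.rev hd, ?_⟩
      rw [hS, hd.symm b a]
      ext p
      constructor
      · rintro ⟨r, hr, rfl⟩
        exact ⟨d a b - r, ⟨by have := hr.2; grind, by have := hr.1; grind⟩, by
          simp only [sub_sub_cancel]⟩
      · rintro ⟨r, hr, rfl⟩
        exact ⟨d a b - r, ⟨by have := hr.2; grind, by have := hr.1; grind⟩, rfl⟩
  obtain ⟨w, γ', hγ', hS'⟩ := key
  have hmem : ∀ r, 0 ≤ r → r ≤ d x w → (r ≤ d x y ∧ α r = γ' r) ∧ (r ≤ d x z ∧ β r = γ' r) := by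
    intro r h0 h1
    have hm : γ' r ∈ α '' Icc 0 (d x y) ∩ β '' Icc 0 (d x z) := by
      rw [hS']; exact ⟨r, ⟨h0, h1⟩, rfl⟩
    obtain ⟨⟨s, hs, hs'⟩, ⟨t, ht, ht'⟩⟩ := hm
    have e0 := hγ'.dist_left hd h0 h1
    have e1 := hα.dist_left hd hs.1 hs.2
    have e2 := hβ.dist_left hd ht.1 ht.2
    rw [hs', e0] at e1
    rw [ht', e0] at e2
    subst e1
    subst e2
    exact ⟨⟨hs.2, hs'⟩, ⟨ht.2, ht'⟩⟩
  have h0 := hd.nonneg x w
  refine ⟨d x w, h0, (hmem _ h0 le_rfl).1.1, (hmem _ h0 le_rfl).2.1, fun r h1 h2 => ?_,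
    fun r r' h1 h2 h3 h4 e => ?_⟩
  · rw [(hmem r h1 h2).1.2, (hmem r h1 h2).2.2]
  · have hm : α r ∈ γ' '' Icc 0 (d x w) := by
      rw [← hS']; exact ⟨⟨r, ⟨h1, h2⟩, rfl⟩, ⟨r', ⟨h3, h4⟩, e.symm⟩⟩
    obtain ⟨q, hq, hq'⟩ := hm
    have e1 := hγ'.dist_left hd hq.1 hq.2
    rw [hq', hα.dist_left hd h1 h2] at e1
    rw [e1]; exact hq.2

/-- Segments are unique. -/
theorem par_unique (hT : IsLTree d) {α β : Λ → X} {x y : X} (hα : Par d α x y)
    (hβ : Par d β x y) {r : Λ} (h0 : 0 ≤ r) (h1 : r ≤ d x y) : α r = β r := by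
  obtain ⟨t, -, -, -, h2, h3⟩ := inter_par hT hα hβ
  have hn := hT.metric.nonneg x y
  exact h2 r h0 (h1.trans (h3 _ _ hn le_rfl hn le_rfl (hα.last.trans hβ.last.symm)))

theorem arith_union {a b c q : Λ} (h1 : |a - b| ≤ |a - c|) (h2 : |a - q| = |a - b|)
    (h3 : |q - c| = |a - c| - |a - b|) : q = b ∨ |b - c| = |a - b| + |a - c| := by
  rcases abs_cases (a - b) with e1 | e1 <;> rcases abs_cases (a - c) with e2 | e2 <;>
    rcases abs_cases (a - q) with e3 | e3 <;> rcases abs_cases (q - c) with e4 | e4 <;>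
    rcases abs_cases (b - c) with e5 | e5 <;> grind

theorem union_par_aux (hT : IsLTree d) {α β : Λ → X} {x y z : X} (hα : Par d α x y)
    (hβ : Par d β x z) (hle : d x y ≤ d x z)
    (h : α '' Icc 0 (d x y) ∩ β '' Icc 0 (d x z) = {x}) : d y z = d x y + d x z := by
  have hd := hT.metric
  obtain ⟨a, b, hab⟩ := hT.union _ _ x y z hα.isSegment hβ.isSegment h
  obtain ⟨γ, hγ, hS⟩ := hab.exists_par hd
  have hmem : ∀ p, p ∈ α '' Icc 0 (d x y) ∪ β '' Icc 0 (d x z) →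
      ∃ q, 0 ≤ q ∧ q ≤ d a b ∧ γ q = p := by
    intro p hp
    rw [hS] at hp
    obtain ⟨q, hq, e⟩ := hp
    exact ⟨q, hq.1, hq.2, e⟩
  have n1 := hd.nonneg x y
  have n2 := hd.nonneg x z
  obtain ⟨qx, x1, x2, x3⟩ := hmem x (Or.inl ⟨0, ⟨le_rfl, n1⟩, hα.zero⟩)
  obtain ⟨qy, y1, y2, y3⟩ := hmem y (Or.inl ⟨_, ⟨n1, le_rfl⟩, hα.last⟩)
  obtain ⟨qz, z1, z2, z3⟩ := hmem z (Or.inr ⟨_, ⟨n2, le_rfl⟩, hβ.last⟩)
  obtain ⟨q, p1, p2, p3⟩ := hmem (β (d x y)) (Or.inr ⟨_, ⟨n1, hle⟩, rfl⟩)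
  have exy := hγ.iso qx qy x1 x2 y1 y2
  have exz := hγ.iso qx qz x1 x2 z1 z2
  have eyz := hγ.iso qy qz y1 y2 z1 z2
  have exp := hγ.iso qx q x1 x2 p1 p2
  have epz := hγ.iso q qz p1 p2 z1 z2
  rw [x3, y3] at exy
  rw [x3, z3] at exz
  rw [y3, z3] at eyz
  rw [x3, p3, hβ.dist_left hd n1 hle] at exp
  rw [p3, z3, hβ.dist_right hd n1 hle] at epz
  rcases arith_union (a := qx) (b := qy) (c := qz) (q := q) (by rw [← exy, ← exz]; exact hle)
    (by rw [← exp, ← exy]) (by rw [← epz, ← exy, ← exz]) with e | e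
  · have hy : y ∈ α '' Icc 0 (d x y) ∩ β '' Icc 0 (d x z) :=
      ⟨⟨_, ⟨n1, le_rfl⟩, hα.last⟩, ⟨_, ⟨n1, hle⟩, by rw [← p3, e, y3]⟩⟩
    rw [h] at hy
    have hy' : y = x := hy
    rw [hy', (hd.eq_zero_iff x x).2 rfl, zero_add]
  · rw [eyz, exy, exz, e]

theorem union_par (hT : IsLTree d) {α β : Λ → X} {x y z : X} (hα : Par d α x y)
    (hβ : Par d β x z) (h : α '' Icc 0 (d x y) ∩ β '' Icc 0 (d x z) = {x}) :
    d y z = d x y + d x z := by
  rcases le_total (d x y) (d x z) with hle | hle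
  · exact union_par_aux hT hα hβ hle h
  · rw [hT.metric.symm y z, add_comm]
    exact union_par_aux hT hβ hα hle (by rw [inter_comm]; exact h)

/-- The tripod lemma. -/
theorem tripod (hT : IsLTree d) {α β : Λ → X} {x y z : X} (hα : Par d α x y)
    (hβ : Par d β x z) : ∃ t, 0 ≤ t ∧ t ≤ d x y ∧ t ≤ d x z ∧
      (∀ r, 0 ≤ r → r ≤ t → α r = β r) ∧ t + t = d x y + d x z - d y z := by
  have hd := hT.metric
  obtain ⟨t, h0, h1, h2, h3, h4⟩ := inter_par hT hα hβ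
  refine ⟨t, h0, h1, h2, h3, ?_⟩
  obtain ⟨e1, p1⟩ := hα.sub h0 h1 le_rfl
  obtain ⟨e2, p2⟩ := hβ.sub h0 h2 le_rfl
  rw [hα.last] at e1 p1
  rw [hβ.last, ← h3 t h0 le_rfl] at e2 p2
  have := union_par hT p1 p2 (by
    rw [e1, e2, Par.sub_image, Par.sub_image]
    ext p
    constructor
    · rintro ⟨⟨r, hr, rfl⟩, ⟨r', hr', e⟩⟩
      have := h4 r r' (h0.trans hr.1) hr.2 (h0.trans hr'.1) hr'.2 e.symm
      rw [le_antisymm this hr.1]
      rfl
    · intro hp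
      have hp' : p = α t := hp
      rw [hp']
      exact ⟨⟨t, ⟨le_rfl, h1⟩, rfl⟩, ⟨t, ⟨le_rfl, h2⟩, (h3 t h0 le_rfl).symm⟩⟩)
  rw [this, e1, e2]
  abel

omit [IsOrderedAddMonoid Λ] in
theorem exists_par (hT : IsLTree d) (x y : X) : ∃ α : Λ → X, Par d α x y := by
  obtain ⟨S, hS⟩ := hT.joined x y
  obtain ⟨α, hα, -⟩ := hS.exists_par hT.metric
  exact ⟨α, hα⟩

theorem half (hT : IsLTree d) (x y z : X) : ∃ c, c + c = d x y + d x z - d y z := by
  obtain ⟨α, hα⟩ := exists_par hT x y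
  obtain ⟨β, hβ⟩ := exists_par hT x z
  obtain ⟨t, -, -, -, -, h⟩ := tripod hT hα hβ
  exact ⟨t, h⟩

theorem ultra (hT : IsLTree d) (o a b c : X) :
    min (d o a + d o c - d a c) (d o b + d o c - d b c) ≤ d o a + d o b - d a b := by
  have hd := hT.metric
  obtain ⟨α, hα⟩ := exists_par hT o a
  obtain ⟨β, hβ⟩ := exists_par hT o b
  obtain ⟨γ, hγ⟩ := exists_par hT o c
  obtain ⟨s, s0, s1, -, s3, s4⟩ := tripod hT hα hγ
  obtain ⟨t, t0, t1, -, t3, t4⟩ := tripod hT hβ hγ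
  have hr0 : 0 ≤ min s t := le_min s0 t0
  have hrs : min s t ≤ s := min_le_left _ _
  have hrt : min s t ≤ t := min_le_right _ _
  have e : α (min s t) = β (min s t) := (s3 _ hr0 hrs).trans (t3 _ hr0 hrt).symm
  have e1 := hα.dist_right hd hr0 (hrs.trans s1)
  have e2 := hβ.dist_right hd hr0 (hrt.trans t1)
  have e3 := hd.triangle a (α (min s t)) b
  rw [hd.symm a (α (min s t)), e1, e, e2] at e3
  rw [← s4, ← t4]
  rcases le_total s t with h | h
  · rw [min_eq_left h] at e3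
    exact (min_le_left _ _).trans (by grind)
  · rw [min_eq_right h] at e3
    exact (min_le_right _ _).trans (by grind)

variable {G : Type w} [Group G] [MulAction G X]

omit [IsOrderedAddMonoid Λ] in
theorem Par.smul (hI : ∀ (g : G) (x y : X), d (g • x) (g • y) = d x y) (g : G) {α : Λ → X}
    {x y : X} (h : Par d α x y) : Par d (fun r => g • α r) (g • x) (g • y) := by
  refine ⟨fun s t hs hs' ht ht' => ?_, by simp only [h.zero], by simp only [hI, h.last]⟩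
  rw [hI] at hs' ht' ⊢
  exact h.iso s t hs hs' ht ht'

theorem length_lt (hT : IsLTree d) (hF : IsFreeIsometric G d) (o : X) {g : G} (hg : g ≠ 1) :
    d o (g • o) < d o ((g * g) • o) := by
  have hd := hT.metric
  have hI := hF.isometric
  by_contra hcon
  rw [not_lt] at hcon
  obtain ⟨α, hα⟩ := exists_par hT o (g • o)
  obtain ⟨β, hβ⟩ := exists_par hT o (g⁻¹ • o)
  have eD : d o (g⁻¹ • o) = d o (g • o) := by
    rw [← hI g, smul_inv_smul, hd.symm]
  have e2 : d (g • o) (g⁻¹ • o) = d o ((g * g) • o) := by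
    rw [← hI g, smul_inv_smul, hd.symm, mul_smul]
  obtain ⟨t, t0, t1, -, t3, t4⟩ := tripod hT hα hβ
  rw [eD, e2] at t4
  have hgβ := hβ.smul hI g
  rw [smul_inv_smul] at hgβ
  have hrev := hα.rev hd
  have key : ∀ r, 0 ≤ r → r ≤ t → g • α r = α (d o (g • o) - r) := by
    intro r h0 h1
    rw [t3 r h0 h1]
    exact par_unique hT hgβ hrev h0 (by rw [hd.symm]; exact h1.trans t1)
  have ha : 0 ≤ d o (g • o) - t := sub_nonneg.2 t1
  have hab : d o (g • o) - t ≤ t := by grind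
  refine hF.no_inversion g hg ⟨_, _, _, hα.sub_isSegment ha hab t1, ?_, ?_, key t t0 le_rfl⟩
  · ext p
    constructor
    · rintro ⟨_, ⟨r, hr, rfl⟩, rfl⟩
      have h1 := hr.1
      have h2 := hr.2
      exact ⟨d o (g • o) - r, ⟨by grind, by grind⟩, (key r (ha.trans h1) h2).symm⟩
    · rintro ⟨r, hr, rfl⟩
      have h1 := hr.1
      have h2 := hr.2
      refine ⟨_, ⟨d o (g • o) - r, ⟨by grind, by grind⟩, rfl⟩, ?_⟩
      show g • α _ = _
      rw [key _ (by grind) (by grind), sub_sub_cancel]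
  · rw [key _ ha hab, sub_sub_cancel]

/-- The based length function is a free Lyndon length function. -/
theorem exists_length [Nonempty X] (hT : IsLTree d) (hF : IsFreeIsometric G d) :
    ∃ ℓ : G → Λ, ℓ 1 = 0 ∧ (∀ g : G, ℓ g⁻¹ = ℓ g) ∧
      (∀ g f h : G, min (ℓ g + ℓ h - ℓ (g⁻¹ * h)) (ℓ f + ℓ h - ℓ (f⁻¹ * h))
        ≤ ℓ g + ℓ f - ℓ (g⁻¹ * f)) ∧
      (∀ g f : G, ∃ c : Λ, c + c = ℓ g + ℓ f - ℓ (g⁻¹ * f)) ∧
      (∀ g : G, g ≠ 1 → ℓ g < ℓ (g * g)) := by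
  obtain ⟨o⟩ := ‹Nonempty X›
  have hd := hT.metric
  have hI := hF.isometric
  have e : ∀ g f : G, d o ((g⁻¹ * f) • o) = d (g • o) (f • o) := by
    intro g f
    rw [← hI g, smul_smul, mul_inv_cancel_left]
  refine ⟨fun g => d o (g • o), ?_, fun g => ?_, fun g f h => ?_, fun g f => ?_,
    fun g hg => length_lt hT hF o hg⟩
  · simp only [one_smul]
    exact (hd.eq_zero_iff o o).2 rfl
  · show d o (g⁻¹ • o) = d o (g • o)
    rw [← hI g, smul_inv_smul, hd.symm]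
  · simp only [e]
    exact ultra hT o _ _ _
  · simp only [e]
    exact half hT o _ _

end Pool.Agent.Lib.MP_d87150_al.Fb
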