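import Pool.Agent.Lib.MP_d87150_al.Final

/-!
# Removing the universe restrictions
-/

set_option autoImplicit false

namespace Pool.Agent.Lib.MP_d87150_al.Fb

universe u w

theorem countable_of_fg (G : Type w) [Group G] [Group.FG G] : Countable G := by
  obtain ⟨S, hS⟩ := Group.fg_def.1 (inferInstance : Group.FG G)
  have hsurj : Function.Surjective (FreeGroup.lift (Subtype.val : S → G)) := by
    rw [← MonoidHom.range_eq_top, FreeGroup.range_lift_eq_closure, Subtype.range_coe_subtype]
    exact hS
  exact hsurj.countable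

theorem countable_closure {Λ : Type u} [AddCommGroup Λ] (S : Set Λ) (hS : S.Countable) :
    Countable (AddSubgroup.closure S) := by
  have : Countable S := hS.to_subtype
  have h : (FreeAddGroup.lift (Subtype.val : S → Λ)).range = AddSubgroup.closure S := by
    rw [FreeAddGroup.range_lift_eq_closure, Subtype.range_coe_subtype]
    rfl
  rw [← h]
  exact (FreeAddGroup.lift (Subtype.val : S → Λ)).rangeRestrict_surjective.countable

theorem final_univ (Λ : Type u) [AddCommGroup Λ] [LinearOrder Λ] [IsOrderedAddMonoid Λ]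
    (G : Type w) [Group G] [Group.FG G] (ℓ : G → Λ) (h1 : ℓ 1 = 0) (h2 : ∀ g : G, ℓ g⁻¹ = ℓ g)
    (h3 : ∀ g f h : G, min (ℓ g + ℓ h - ℓ (g⁻¹ * h)) (ℓ f + ℓ h - ℓ (f⁻¹ * h))
      ≤ ℓ g + ℓ f - ℓ (g⁻¹ * f))
    (h4 : ∀ g f : G, ∃ c : Λ, c + c = ℓ g + ℓ f - ℓ (g⁻¹ * f))
    (h5 : ∀ g : G, g ≠ 1 → ℓ g < ℓ (g * g)) : Group.IsFinitelyPresented G := by
  have hG : Countable G := countable_of_fg G
  choose c hc using h4
  let S : Set Λ := Set.range ℓ ∪ Set.range fun p : G × G => c p.1 p.2
  have hS : S.Countable := (Set.countable_range _).union (Set.countable_range _)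
  let A : AddSubgroup Λ := AddSubgroup.closure S
  have hA : Countable A := countable_closure S hS
  have sA : Small.{0} A := inferInstance
  have sG : Small.{0} G := inferInstance
  let φ : Shrink.{0} A →+ Λ := A.subtype.comp (Shrink.addEquiv (α := A)).toAddMonoidHom
  have hφ : ∀ a b : Shrink.{0} A, φ a ≤ φ b ↔ a ≤ b := by
    intro a b
    exact (orderIsoShrink.{0} A).symm.le_iff_le
  have hinj : Function.Injective φ := fun a b e =>
    le_antisymm ((hφ a b).1 e.le) ((hφ b a).1 e.ge)
  have hmono : Monotone φ := fun a b h => (hφ a b).2 h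
  have hord : IsOrderedAddMonoid (Shrink.{0} A) :=
    { add_le_add_left := fun a b h e => (hφ _ _).1 (by
        rw [map_add, map_add]
        exact add_le_add_left ((hφ a b).2 h) _) }
  have hsur : ∀ x ∈ S, ∃ a, φ a = x := fun x hx =>
    ⟨(Shrink.addEquiv (α := A)).symm ⟨x, AddSubgroup.subset_closure hx⟩, by
      simp [φ]⟩
  choose L hL using fun g : G => hsur (ℓ g) (Or.inl ⟨g, rfl⟩)
  let e : Shrink.{0} G ≃* G := Shrink.mulEquiv
  have hfg : Group.FG (Shrink.{0} G) :=
    Group.fg_of_surjective (f := e.symm.toMonoidHom) e.symm.surjective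
  obtain ⟨n, rels, ⟨i⟩⟩ := final (Shrink.{0} A) (Shrink.{0} G) (fun g => L (e g))
    (hinj (by rw [hL, map_one, h1, map_zero]))
    (fun g => hinj (by rw [hL, hL, map_inv, h2]))
    (fun g f h => (hφ _ _).1 (by
      rw [hmono.map_min]
      simp only [map_sub, map_add, hL, map_mul, map_inv]
      exact h3 _ _ _))
    (fun g f => by
      obtain ⟨a, ha⟩ := hsur (c (e g) (e f)) (Or.inr ⟨(e g, e f), rfl⟩)
      refine ⟨a, hinj ?_⟩
      simp only [map_sub, map_add, hL, map_mul, map_inv, ha]
      exact hc _ _)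
    (fun g hg => by
      have h := h5 (e g) (fun h => hg (e.injective (h.trans (map_one e).symm)))
      refine lt_of_not_ge fun h' => ?_
      have h'' := (hφ _ _).2 h'
      rw [hL, hL, map_mul] at h''
      exact absurd h (not_lt.2 h''))
  have hfin : Finite (rels : Set (FreeGroup (Fin n))) := rels.finite_toSet.to_subtype
  have hp : Group.IsFinitelyPresented (PresentedGroup (rels : Set (FreeGroup (Fin n)))) :=
    inferInstance
  exact Group.IsFinitelyPresented.equiv (i.symm.trans e)

end Pool.Agent.Lib.MP_d87150_al.Fb
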